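import Pool.Agent.H37.UM.Stmts

set_option autoImplicit false

namespace Pool.Agent.H37.UM

namespace PB

/-- the comparison function -/
noncomputable def LL (r B x : ℝ) : ℝ := r ^ (2 * B - x) * ((B ^ 2 - (x - B) ^ 2) / B ^ 2)

theorem LL_nonpos {r B x : ℝ} (hr : 0 < r) (hB : 1 ≤ B) (hx : ¬ (0 < x ∧ x < 2 * B)) :
    LL r B x ≤ 0 := by
  unfold LL
  have h1 : 0 < r ^ (2 * B - x) := Real.rpow_pos_of_pos hr _
  have h2 : B ^ 2 - (x - B) ^ 2 ≤ 0 := by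
    have h3 : B ^ 2 - (x - B) ^ 2 = x * (2 * B - x) := by ring
    rw [h3]
    by_cases h4 : 0 < x
    · have h5 : ¬ x < 2 * B := fun h => hx ⟨h4, h⟩
      exact mul_nonpos_of_nonneg_of_nonpos h4.le (by linarith)
    · push Not at h4
      exact mul_nonpos_of_nonpos_of_nonneg h4 (by linarith)
  have h3 : (B ^ 2 - (x - B) ^ 2) / B ^ 2 ≤ 0 := div_nonpos_of_nonpos_of_nonneg h2 (by positivity)
  exact mul_nonpos_of_nonneg_of_nonpos h1.le h3

theorem LL_le_one {r B x : ℝ} (hr : 0 < r) (hr1 : r ≤ 1) (hB : 1 ≤ B) : LL r B x ≤ 1 := by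
  by_cases hx : 0 < x ∧ x < 2 * B
  · unfold LL
    have h1 : r ^ (2 * B - x) ≤ 1 := Real.rpow_le_one hr.le hr1 (by linarith)
    have h0 : 0 < r ^ (2 * B - x) := Real.rpow_pos_of_pos hr _
    have hB2 : 0 < B ^ 2 := by positivity
    have h2 : (B ^ 2 - (x - B) ^ 2) / B ^ 2 ≤ 1 := by
      rw [div_le_one hB2]; nlinarith [sq_nonneg (x - B)]
    have h3 : 0 ≤ (B ^ 2 - (x - B) ^ 2) / B ^ 2 := by
      apply div_nonneg _ hB2.le
      nlinarith
    calc _ ≤ 1 * 1 := mul_le_mul h1 h2 h3 (by norm_num)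
      _ = 1 := by norm_num
  · exact (LL_nonpos hr hB hx).trans (by norm_num)

theorem LL_pair {r B x y : ℝ} (hr : 0 < r) (hr1 : r ≤ 1) (hB : 1 ≤ B) (hx : 0 < x ∧ x < 2 * B)
    (hxy : 4 * B ≤ x + y) : LL r B x + LL r B y ≤ 0 := by
  unfold LL
  have h1 : r ^ (2 * B - x) ≤ 1 := Real.rpow_le_one hr.le hr1 (by linarith)
  have h0 : 0 < r ^ (2 * B - x) := Real.rpow_pos_of_pos hr _
  have hB2 : 0 < B ^ 2 := by positivity
  have h2 : 1 ≤ r ^ (2 * B - y) := Real.one_le_rpow_of_pos_of_le_one_of_nonpos hr hr1 (by linarith)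
  have h3 : 0 ≤ (B ^ 2 - (x - B) ^ 2) / B ^ 2 := by
    apply div_nonneg _ hB2.le
    nlinarith
  have h4 : r ^ (2 * B - x) * ((B ^ 2 - (x - B) ^ 2) / B ^ 2) ≤ (B ^ 2 - (x - B) ^ 2) / B ^ 2 := by
    calc _ ≤ 1 * ((B ^ 2 - (x - B) ^ 2) / B ^ 2) := mul_le_mul_of_nonneg_right h1 h3
      _ = _ := one_mul _
  have h5 : (B ^ 2 - (y - B) ^ 2) / B ^ 2 ≤ 0 := by
    apply div_nonpos_of_nonpos_of_nonneg _ hB2.le
    have h6 : B ^ 2 - (y - B) ^ 2 = y * (2 * B - y) := by ring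
    rw [h6]
    exact mul_nonpos_of_nonneg_of_nonpos (by linarith) (by linarith)
  have h6 : r ^ (2 * B - y) * ((B ^ 2 - (y - B) ^ 2) / B ^ 2) ≤ (B ^ 2 - (y - B) ^ 2) / B ^ 2 := by
    nlinarith
  have h7 : (B ^ 2 - (x - B) ^ 2) / B ^ 2 + (B ^ 2 - (y - B) ^ 2) / B ^ 2 ≤ 0 := by
    rw [← add_div]
    apply div_nonpos_of_nonpos_of_nonneg _ hB2.le
    have h8 : 3 * B - x ≤ y - B := by linarith
    have h9 : (3 * B - x) ^ 2 ≤ (y - B) ^ 2 := by
      apply pow_le_pow_left₀ (by linarith) h8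
    nlinarith [sq_nonneg (x - 2 * B)]
  linarith

end PB

open PB Finset PowerSeries in
theorem PB_thm (hSTEP : STEPStmt) (hSTR : STRStmt) (hTSU : TSUStmt) (hMOA : MOAStmt)
    (hUU : UUStmt) : PBStmt := by
  intro t N k B r ht hN hB h4B hr hr1 hk
  set M := N - 6 * t with hM
  obtain ⟨hf, hdf⟩ := hSTR t N ht hN
  rw [← hM] at hf hdf
  have hv : SU (dg M) (T M) := hTSU M (by omega)
  obtain ⟨c, hc⟩ : Even (dU M N) := hUU.2.2.2.2.2.2 M N
  have hc2 : dU M N = 2 * c := by omega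
  have hMN : M ≤ N := by omega
  have hdg : dU M N + dg M = dg N := hUU.2.2.2.2.2.1 0 M N (Nat.zero_le _) hMN
  have hT : U M N * T M = T N := hUU.2.2.2.2.1 0 M N (Nat.zero_le _) hMN
  have h4B' : 4 * B ≤ 2 * (c : ℝ) := by
    rw [hc2] at h4B
    push_cast at h4B
    linarith
  have key := hSTEP c (dg M) k (U M N) (T M) (fun j => LL r B (j : ℝ)) (hc2 ▸ hf) hv
    (by omega)
    (by
      intro j hj
      have h1 : (1 : ℤ) ≤ df (U M N) j := hdf j (by omega)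
      have h2 : (1 : ℝ) ≤ ((df (U M N) j : ℤ) : ℝ) := by exact_mod_cast h1
      exact (LL_le_one hr hr1 hB).trans h2)
    (by
      intro j hj
      apply LL_nonpos hr hB
      rintro ⟨h1, _⟩
      have : (0 : ℤ) < j := by exact_mod_cast h1
      omega)
    (by
      intro j
      push_cast
      by_cases h1 : 0 < (j : ℝ) ∧ (j : ℝ) < 2 * B
      · exact LL_pair hr hr1 hB h1 (by linarith)
      · by_cases h2 : 0 < (2 * (c : ℝ) + 1 - j) ∧ (2 * (c : ℝ) + 1 - j) < 2 * B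
        · rw [add_comm]
          exact LL_pair hr hr1 hB h2 (by linarith)
        · have h3 := LL_nonpos hr hB h1
          have h4 := LL_nonpos hr hB h2
          linarith)
  rw [hT] at key
  refine le_trans (le_of_eq ?_) key
  have hTe := hMOA.1 M r
  have hTe0 : 0 < Te M r := hMOA.2.1 M r hr
  have hmu : ∑ i ∈ range (dg M + 1), (i : ℝ) * (((coeff i (T M) : ℤ) : ℝ) * r ^ i) =
      mu M r * Te M r := by
    unfold mu
    field_simp
  have hva : ∑ i ∈ range (dg M + 1), (i : ℝ) ^ 2 * (((coeff i (T M) : ℤ) : ℝ) * r ^ i) =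
      (va M r + mu M r ^ 2) * Te M r := by
    unfold va
    field_simp
    ring
  have hterm : ∀ i ∈ range (dg M + 1), ((coeff i (T M) : ℤ) : ℝ) * LL r B (((k : ℤ) - i : ℤ) : ℝ) =
      r ^ (2 * B) / B ^ 2 * (r ^ k)⁻¹ * (((B ^ 2 - ((k : ℝ) - B) ^ 2) *
        (((coeff i (T M) : ℤ) : ℝ) * r ^ i)) + 2 * ((k : ℝ) - B) *
          ((i : ℝ) * (((coeff i (T M) : ℤ) : ℝ) * r ^ i)) -
        (i : ℝ) ^ 2 * (((coeff i (T M) : ℤ) : ℝ) * r ^ i)) := by
    intro i _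
    unfold LL
    push_cast
    have h1 : r ^ (2 * B - ((k : ℝ) - (i : ℝ))) = r ^ (2 * B) * (r ^ k)⁻¹ * r ^ i := by
      have h2 : 2 * B - ((k : ℝ) - (i : ℝ)) = 2 * B + (-(k : ℝ)) + (i : ℝ) := by ring
      rw [h2, Real.rpow_add hr, Real.rpow_add hr, Real.rpow_neg hr.le, Real.rpow_natCast,
        Real.rpow_natCast]
    rw [h1]
    ring
  rw [sum_congr rfl hterm, ← mul_sum, sum_sub_distrib, sum_add_distrib, ← mul_sum, ← mul_sum, hmu,
    hva, ← hTe]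
  ring

end Pool.Agent.H37.UM
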