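import Pool.Agent.H37.UM.Stmts

set_option autoImplicit false

namespace Pool.Agent.H37.UM

namespace R1

open Finset Polynomial

theorem cc_lt (n i a : ℕ) (hi : 1 ≤ i) : a < cc n i ↔ 2 ^ a * i ≤ n := by
  unfold cc
  by_cases hn : n < i
  · have h1 : 0 < 2 ^ a := by positivity
    have h2 : i ≤ 2 ^ a * i := Nat.le_mul_of_pos_left i h1
    simp only [hn, or_true, if_true]
    constructor
    · intro h; omega
    · intro h; omega
  · have h0 : i ≠ 0 := by omega
    have h1 : ¬ (i = 0 ∨ n < i) := by tauto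
    rw [if_neg h1, Nat.lt_succ_iff]
    have h2 : n / i ≠ 0 := by
      have := Nat.div_pos (not_lt.1 hn) (by omega : 0 < i)
      omega
    rw [Nat.le_log_iff_pow_le (by norm_num) h2, Nat.le_div_iff_mul_le (by omega)]

theorem op_spec (m : ℕ) (hm : 1 ≤ m) : m = 2 ^ padicValNat 2 m * op m ∧ ¬ 2 ∣ op m ∧ 1 ≤ op m := by
  have h1 : 2 ^ padicValNat 2 m ∣ m := pow_padicValNat_dvd
  have h2 : m = 2 ^ padicValNat 2 m * op m := by
    unfold op
    exact (Nat.mul_div_cancel' h1).symm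
  refine ⟨h2, ?_, ?_⟩
  · rintro ⟨c, hc⟩
    have h3 : 2 ^ (padicValNat 2 m + 1) ∣ m := by
      refine ⟨c, ?_⟩
      rw [pow_succ, mul_assoc, ← hc]
      exact h2
    have h4 := (padicValNat_dvd_iff_le (p := 2) (by omega : m ≠ 0)).1 h3
    omega
  · by_contra h3
    have h4 : op m = 0 := by omega
    rw [h4] at h2
    omega

theorem one_add_pow (n i : ℕ) (hi : 1 ≤ i) (hn : i ≤ n) :
    (1 + X ^ i : ℤ[X]) =
      ∏ d ∈ Icc 1 (2 * n), cyclotomic d ℤ ^ (if d ∣ 2 * i ∧ ¬ d ∣ i then 1 else 0) := by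
  have h0 : ∏ d ∈ Icc 1 (2 * n), cyclotomic d ℤ ^ (if d ∣ 2 * i ∧ ¬ d ∣ i then 1 else 0) =
      ∏ d ∈ (Icc 1 (2 * n)).filter (fun d => d ∣ 2 * i ∧ ¬ d ∣ i), cyclotomic d ℤ := by
    rw [prod_filter]
    refine prod_congr rfl fun d _ => ?_
    split_ifs <;> simp
  have h1 : (Icc 1 (2 * n)).filter (fun d => d ∣ 2 * i ∧ ¬ d ∣ i) =
      (2 * i).divisors \ i.divisors := by
    ext d
    simp only [mem_filter, mem_Icc, mem_sdiff, Nat.mem_divisors]
    constructor
    · rintro ⟨h1, h2, h3⟩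
      exact ⟨⟨h2, by omega⟩, fun h => h3 h.1⟩
    · rintro ⟨⟨h1, h2⟩, h3⟩
      have h4 := Nat.le_of_dvd (by omega) h1
      have h5 := Nat.pos_of_dvd_of_pos h1 (by omega)
      exact ⟨⟨h5, by omega⟩, h1, fun h => h3 ⟨h, by omega⟩⟩
  rw [h0, h1]
  have hsub : i.divisors ⊆ (2 * i).divisors :=
    Nat.divisors_subset_of_dvd (by omega) (Dvd.intro_left 2 rfl)
  have h2 := prod_sdiff (f := fun d => cyclotomic d ℤ) hsub
  rw [prod_cyclotomic_eq_X_pow_sub_one (by omega) ℤ, prod_cyclotomic_eq_X_pow_sub_one (by omega) ℤ] at h2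
  have h3 : (X ^ i - 1 : ℤ[X]) ≠ 0 := by
    have := monic_X_pow_sub_C (1 : ℤ) (by omega : i ≠ 0)
    have h4 := this.ne_zero
    simpa using h4
  refine mul_right_cancel₀ h3 ?_
  rw [h2]
  ring

theorem mult (n : ℕ) (s : Multiset ℕ) (hs : ∀ i ∈ s, 1 ≤ i ∧ i ≤ n) :
    (s.map fun i => (1 + X ^ i : ℤ[X])).prod =
      ∏ d ∈ Icc 1 (2 * n), cyclotomic d ℤ ^ (s.filter (fun i => d ∣ 2 * i ∧ ¬ d ∣ i)).card := by
  induction s using Multiset.induction_on with
  | empty => simp
  | cons i s ih =>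
    rw [Multiset.map_cons, Multiset.prod_cons, ih (fun j hj => hs j (Multiset.mem_cons_of_mem hj)),
      one_add_pow n i (hs i (Multiset.mem_cons_self i s)).1 (hs i (Multiset.mem_cons_self i s)).2,
      ← prod_mul_distrib]
    refine prod_congr rfl fun d _ => ?_
    rw [← pow_add]
    congr 1
    rw [Multiset.filter_cons, Multiset.card_add]
    split_ifs <;> simp

theorem card_le (n d : ℕ) (p : n.Partition) (hd : 1 ≤ d) :
    (p.parts.filter (fun i => d ∣ 2 * i ∧ ¬ d ∣ i)).card ≤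
      ∑ i ∈ Icc 1 n, (if d ∣ 2 * i ∧ ¬ d ∣ i then 1 else 0) * cc n i := by
  rcases Nat.even_or_odd d with ⟨e, he⟩ | hodd
  · have he1 : 1 ≤ e := by omega
    -- upper bound by `n / e`
    have h1 : (p.parts.filter (fun i => d ∣ 2 * i ∧ ¬ d ∣ i)).card ≤ n / e := by
      rw [Nat.le_div_iff_mul_le (by omega)]
      have h2 : ∀ i ∈ p.parts.filter (fun i => d ∣ 2 * i ∧ ¬ d ∣ i), e ≤ i := by
        intro i hi
        rw [Multiset.mem_filter] at hi
        obtain ⟨h3, h4, h5⟩ := hi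
        have h6 : e ∣ i := by
          have : 2 * e ∣ 2 * i := by rw [he] at h4; convert h4 using 1; ring
          exact Nat.dvd_of_mul_dvd_mul_left (by norm_num) this
        exact Nat.le_of_dvd (p.parts_pos h3) h6
      have h3 := Multiset.card_nsmul_le_sum h2
      rw [smul_eq_mul] at h3
      refine h3.trans ?_
      have h4 : (p.parts.filter (fun i => d ∣ 2 * i ∧ ¬ d ∣ i)).sum ≤ p.parts.sum := by
        have := Multiset.filter_add_not (fun i => d ∣ 2 * i ∧ ¬ d ∣ i) p.parts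
        calc _ ≤ (p.parts.filter (fun i => d ∣ 2 * i ∧ ¬ d ∣ i)).sum +
              (p.parts.filter (fun i => ¬ (d ∣ 2 * i ∧ ¬ d ∣ i))).sum := Nat.le_add_right _ _
          _ = _ := by rw [← Multiset.sum_add, this]
      rwa [p.parts_sum] at h4
    refine h1.trans ?_
    have h2 : ∑ i ∈ Icc 1 n, (if d ∣ 2 * i ∧ ¬ d ∣ i then 1 else 0) * cc n i =
        ∑ i ∈ (Icc 1 n).filter (fun i => d ∣ 2 * i ∧ ¬ d ∣ i), cc n i := by
      rw [sum_filter]
      refine sum_congr rfl fun i _ => ?_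
      split_ifs <;> simp
    rw [h2]
    have hmaps : ∀ m ∈ Icc 1 (n / e), e * op m ∈ (Icc 1 n).filter (fun i => d ∣ 2 * i ∧ ¬ d ∣ i) := by
      intro m hm
      rw [mem_Icc] at hm
      obtain ⟨h3, h4, h5⟩ := op_spec m hm.1
      have h6 : op m ≤ m := Nat.div_le_self _ _
      have h7 : e * m ≤ n := by
        have := (Nat.le_div_iff_mul_le (by omega : 0 < e)).1 hm.2
        rwa [mul_comm] at this
      rw [mem_filter, mem_Icc]
      refine ⟨⟨by nlinarith, (Nat.mul_le_mul_left e h6).trans h7⟩, ⟨op m, by rw [he]; ring⟩, ?_⟩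
      intro h8
      apply h4
      have h9 : e * 2 ∣ e * op m := by rw [he] at h8; convert h8 using 1; ring
      exact Nat.dvd_of_mul_dvd_mul_left (by omega) h9
    have h3 := Finset.card_eq_sum_card_fiberwise (f := fun m => e * op m) (s := Icc 1 (n / e))
      (t := (Icc 1 n).filter (fun i => d ∣ 2 * i ∧ ¬ d ∣ i)) (by
        intro m hm
        exact hmaps m hm)
    rw [Nat.card_Icc] at h3
    have h3' : n / e = ∑ b ∈ (Icc 1 n).filter (fun i => d ∣ 2 * i ∧ ¬ d ∣ i),
        ((Icc 1 (n / e)).filter (fun m => e * op m = b)).card := by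
      rw [← h3]; omega
    rw [h3']
    refine sum_le_sum fun i hi => ?_
    rw [mem_filter, mem_Icc] at hi
    rw [← card_range (cc n i)]
    refine card_le_card_of_injOn (fun m => padicValNat 2 m) ?_ ?_
    · intro m hm
      simp only [coe_filter, Set.mem_setOf_eq, mem_Icc] at hm
      simp only [coe_range, Set.mem_Iio]
      rw [cc_lt n i _ hi.1.1, ← hm.2]
      have h4 := (op_spec m hm.1.1).1
      have h7 : m * e ≤ n := (Nat.le_div_iff_mul_le (by omega : 0 < e)).1 hm.1.2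
      calc 2 ^ padicValNat 2 m * (e * op m) = (2 ^ padicValNat 2 m * op m) * e := by ring
        _ = m * e := by rw [← h4]
        _ ≤ n := h7
    · intro m hm m' hm' hmm
      simp only [coe_filter, Set.mem_setOf_eq, mem_Icc] at hm hm' hmm
      have h4 := (op_spec m hm.1.1).1
      have h5 := (op_spec m' hm'.1.1).1
      have h6 : op m = op m' := by
        have : e * op m = e * op m' := by rw [hm.2, hm'.2]
        exact Nat.eq_of_mul_eq_mul_left (by omega) this
      rw [h4, h5, hmm, h6]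
  · have h1 : p.parts.filter (fun i => d ∣ 2 * i ∧ ¬ d ∣ i) = 0 := by
      rw [Multiset.filter_eq_nil]
      rintro i _ ⟨h2, h3⟩
      exact h3 ((Nat.Coprime.dvd_mul_left (Nat.Coprime.symm (Nat.coprime_two_left.2 hodd))).1 h2)
    rw [h1]
    simp

end R1

open R1 Finset Polynomial in
theorem R1_thm : R1Stmt := by
  intro n p
  have hp : ∀ i ∈ p.parts, 1 ≤ i ∧ i ≤ n := by
    intro i hi
    refine ⟨p.parts_pos hi, ?_⟩
    have := Multiset.single_le_sum (fun x _ => Nat.zero_le x) i hi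
    rwa [p.parts_sum] at this
  rw [mult n p.parts hp]
  have h1 : ∏ i ∈ Icc 1 n, (1 + X ^ i : ℤ[X]) ^ cc n i =
      ∏ d ∈ Icc 1 (2 * n), cyclotomic d ℤ ^
        (∑ i ∈ Icc 1 n, (if d ∣ 2 * i ∧ ¬ d ∣ i then 1 else 0) * cc n i) := by
    calc ∏ i ∈ Icc 1 n, (1 + X ^ i : ℤ[X]) ^ cc n i =
        ∏ i ∈ Icc 1 n, ∏ d ∈ Icc 1 (2 * n),
          cyclotomic d ℤ ^ ((if d ∣ 2 * i ∧ ¬ d ∣ i then 1 else 0) * cc n i) := by
          refine prod_congr rfl fun i hi => ?_
          rw [mem_Icc] at hi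
          conv_lhs => rw [one_add_pow n i hi.1 hi.2]
          rw [← prod_pow]
          refine prod_congr rfl fun d _ => ?_
          rw [pow_mul]
      _ = _ := by
          rw [prod_comm]
          refine prod_congr rfl fun d _ => ?_
          rw [prod_pow_eq_pow_sum]
  rw [h1]
  refine prod_dvd_prod_of_dvd _ _ fun d hd => ?_
  rw [mem_Icc] at hd
  exact pow_dvd_pow _ (card_le n d p hd.1)

end Pool.Agent.H37.UM
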