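import Pool.Agent.H15.UM.R1

set_option autoImplicit false

namespace Pool.Agent.H37.UM

namespace R3

open R1 Finset Polynomial

theorem cyc_prime (d : ℕ) (hd : 1 ≤ d) : Prime (cyclotomic d ℤ) :=
  (cyclotomic.irreducible (by omega)).prime

/-- divisors of a product of powers of cyclotomic polynomials -/
theorem dvd_form (S : Finset ℕ) (m : ℕ → ℕ) (hS : ∀ d ∈ S, 1 ≤ d) (q : ℤ[X])
    (h : q ∣ ∏ d ∈ S, cyclotomic d ℤ ^ m d) :
    ∃ a : ℕ → ℕ, Associated q (∏ d ∈ S, cyclotomic d ℤ ^ a d) := by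
  induction S using Finset.induction_on generalizing q with
  | empty =>
    refine ⟨fun _ => 0, ?_⟩
    rw [prod_empty] at h ⊢
    exact associated_one_iff_isUnit.2 (isUnit_of_dvd_one h)
  | insert d S hd ih =>
    rw [prod_insert hd] at h
    obtain ⟨a1, a2, h1, h2, h3⟩ := exists_dvd_and_dvd_of_dvd_mul h
    obtain ⟨i, _, hi⟩ := (dvd_prime_pow (cyc_prime d (hS d (mem_insert_self d S))) (m d)).1 h1
    obtain ⟨a, ha⟩ := ih (fun x hx => hS x (mem_insert_of_mem hx)) a2 h2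
    refine ⟨Function.update a d i, ?_⟩
    rw [prod_insert hd, h3, Function.update_self]
    have h4 : ∏ x ∈ S, cyclotomic x ℤ ^ Function.update a d i x =
        ∏ x ∈ S, cyclotomic x ℤ ^ a x := by
      refine prod_congr rfl fun x hx => ?_
      rw [Function.update_of_ne]
      rintro rfl
      exact hd hx
    rw [h4]
    exact hi.mul_mul ha

theorem pow_le (S : Finset ℕ) (E : ℕ → ℕ) (hS : ∀ d ∈ S, 1 ≤ d) (d0 : ℕ) (hd0 : d0 ∈ S) (a : ℕ)
    (h : cyclotomic d0 ℤ ^ a ∣ ∏ d ∈ S, cyclotomic d ℤ ^ E d) : a ≤ E d0 := by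
  have hp := cyc_prime d0 (hS d0 hd0)
  rw [← mul_prod_erase S (fun d => cyclotomic d ℤ ^ E d) hd0] at h
  have h1 : ¬ cyclotomic d0 ℤ ∣ ∏ d ∈ S.erase d0, cyclotomic d ℤ ^ E d := by
    rw [Prime.dvd_finsetProd_iff hp]
    rintro ⟨d, hd, h2⟩
    rw [mem_erase] at hd
    have h3 := hp.dvd_of_dvd_pow h2
    have h4 : Associated (cyclotomic d0 ℤ) (cyclotomic d ℤ) :=
      hp.irreducible.associated_of_dvd (cyc_prime d (hS d hd.2)).irreducible h3
    have h5 := eq_of_monic_of_associated (cyclotomic.monic d0 ℤ) (cyclotomic.monic d ℤ) h4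
    exact hd.1 (cyclotomic_injective h5).symm
  have h2 := hp.pow_dvd_of_dvd_mul_right a h1 h
  exact (pow_dvd_pow_iff hp.ne_zero hp.not_isUnit).1 h2

/-- coefficient of the factorisation -/
def ct (d i : ℕ) : ℕ := if d ∣ 2 * i ∧ ¬ d ∣ i then 1 else 0

theorem prod_form (n : ℕ) (e : ℕ → ℕ) : ∏ i ∈ Icc 1 n, (1 + X ^ i : ℤ[X]) ^ e i =
    ∏ d ∈ Icc 1 (2 * n), cyclotomic d ℤ ^ (∑ i ∈ Icc 1 n, ct d i * e i) := by
  calc ∏ i ∈ Icc 1 n, (1 + X ^ i : ℤ[X]) ^ e i =
      ∏ i ∈ Icc 1 n, ∏ d ∈ Icc 1 (2 * n), cyclotomic d ℤ ^ (ct d i * e i) := by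
        refine prod_congr rfl fun i hi => ?_
        rw [mem_Icc] at hi
        conv_lhs => rw [one_add_pow n i hi.1 hi.2]
        rw [← prod_pow]
        refine prod_congr rfl fun d _ => ?_
        rw [pow_mul]; rfl
    _ = _ := by
        rw [prod_comm]
        refine prod_congr rfl fun d _ => ?_
        rw [prod_pow_eq_pow_sum]

theorem cc_le (n i : ℕ) (hi : 1 ≤ i) : cc n i ≤ n / i := by
  by_contra h
  push Not at h
  rw [cc_lt n i _ hi] at h
  have h1 := (Nat.le_div_iff_mul_le (by omega : 0 < i)).2 h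
  have h2 : n / i < 2 ^ (n / i) := Nat.lt_two_pow_self
  omega

theorem count_le (n i : ℕ) (hi : 1 ≤ i) (p : n.Partition) : p.parts.count i ≤ n / i := by
  rw [Nat.le_div_iff_mul_le (by omega)]
  have h1 : Multiset.replicate (p.parts.count i) i ≤ p.parts := Multiset.le_count_iff_replicate_le.1 le_rfl
  obtain ⟨t, ht⟩ := Multiset.le_iff_exists_add.1 h1
  have h2 := p.parts_sum
  rw [ht, Multiset.sum_add, Multiset.sum_replicate, smul_eq_mul] at h2
  omega

theorem val_mul (a t : ℕ) (ht : ¬ 2 ∣ t) : padicValNat 2 (2 ^ a * t) = a := by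
  have h0 : t ≠ 0 := by rintro rfl; exact ht (dvd_zero 2)
  rw [padicValNat.mul (by positivity) h0, padicValNat.prime_pow, padicValNat.eq_zero_of_not_dvd ht]
  omega

theorem cc_sum_le (n e : ℕ) (he : 1 ≤ e) : ∑ i ∈ Icc 1 n, ct (2 * e) i * cc n i ≤ n / e := by
  have h2 : ∑ i ∈ Icc 1 n, ct (2 * e) i * cc n i =
      ∑ i ∈ (Icc 1 n).filter (fun i => 2 * e ∣ 2 * i ∧ ¬ 2 * e ∣ i), cc n i := by
    rw [sum_filter]
    refine sum_congr rfl fun i _ => ?_
    unfold ct
    split_ifs <;> simp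
  have h3 : ∑ i ∈ (Icc 1 n).filter (fun i => 2 * e ∣ 2 * i ∧ ¬ 2 * e ∣ i), cc n i =
      (((Icc 1 n).filter (fun i => 2 * e ∣ 2 * i ∧ ¬ 2 * e ∣ i)).sigma
        (fun i => range (cc n i))).card := by
    rw [card_sigma]
    simp
  have hT : ∀ i, 2 * e ∣ 2 * i → ¬ 2 * e ∣ i → ∃ t, i = e * t ∧ ¬ 2 ∣ t ∧ i / e = t := by
    intro i h4 h5
    obtain ⟨t, ht⟩ := Nat.dvd_of_mul_dvd_mul_left (by norm_num) h4
    refine ⟨t, ht, ?_, ?_⟩
    · rintro ⟨c, hc⟩
      exact h5 ⟨c, by rw [ht, hc]; ring⟩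
    · rw [ht]; exact Nat.mul_div_cancel_left t (by omega)
  rw [h2, h3]
  have h4 : (Icc 1 (n / e)).card = n / e := by rw [Nat.card_Icc, Nat.add_sub_cancel]
  rw [← h4]
  refine card_le_card_of_injOn (fun x => 2 ^ x.2 * (x.1 / e)) ?_ ?_
  · rintro ⟨i, a⟩ hx
    simp only [coe_sigma, coe_filter, coe_range, Set.mem_sigma_iff, Set.mem_ofPred_eq, mem_Icc,
      Set.mem_Iio] at hx
    obtain ⟨⟨⟨h5, h6⟩, h7, h8⟩, h9⟩ := hx
    obtain ⟨t, ht, hto, htd⟩ := hT i h7 h8
    rw [cc_lt n i a h5] at h9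
    simp only [coe_Icc, Set.mem_Icc]
    have h0 : 1 ≤ t := by
      rcases Nat.eq_zero_or_pos t with h | h
      · rw [h] at hto; exact absurd (dvd_zero 2) hto
      · exact h
    rw [htd]
    refine ⟨Nat.one_le_iff_ne_zero.2 (by positivity), ?_⟩
    rw [Nat.le_div_iff_mul_le (by omega)]
    calc 2 ^ a * t * e = 2 ^ a * i := by rw [ht]; ring
      _ ≤ n := h9
  · rintro ⟨i, a⟩ hx ⟨i', a'⟩ hx' hxx
    simp only [coe_sigma, coe_filter, coe_range, Set.mem_sigma_iff, Set.mem_ofPred_eq, mem_Icc,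
      Set.mem_Iio] at hx hx'
    obtain ⟨⟨⟨h5, h6⟩, h7, h8⟩, h9⟩ := hx
    obtain ⟨⟨⟨h5', h6'⟩, h7', h8'⟩, h9'⟩ := hx'
    obtain ⟨t, ht, hto, htd⟩ := hT i h7 h8
    obtain ⟨t', ht', hto', htd'⟩ := hT i' h7' h8'
    simp only [htd, htd'] at hxx
    have h10 : a = a' := by
      have := congrArg (padicValNat 2) hxx
      rwa [val_mul a t hto, val_mul a' t' hto'] at this
    subst h10
    have h11 : t = t' := Nat.eq_of_mul_eq_mul_left (by positivity) hxx
    subst h11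
    rw [ht, ht']

/-- the partition `e, ..., e, 1, ..., 1` -/
def pe (n e : ℕ) (he : 1 ≤ e) : n.Partition where
  parts := Multiset.replicate (n / e) e + Multiset.replicate (n % e) 1
  parts_pos := by
    intro i hi
    rw [Multiset.mem_add] at hi
    rcases hi with hi | hi
    · rw [Multiset.eq_of_mem_replicate hi]; omega
    · rw [Multiset.eq_of_mem_replicate hi]; omega
  parts_sum := by
    rw [Multiset.sum_add, Multiset.sum_replicate, Multiset.sum_replicate, smul_eq_mul, smul_eq_mul,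
      mul_one, mul_comm]
    exact Nat.div_add_mod n e

theorem exists_part (n d : ℕ) (hd : 1 ≤ d) (hdn : d ≤ 2 * n) : ∃ p : n.Partition,
    ∑ i ∈ Icc 1 n, ct d i * (n / i - p.parts.count i) ≤
      ∑ i ∈ Icc 1 n, ct d i * (n / i - cc n i) := by
  rcases Nat.even_or_odd d with ⟨e, he⟩ | hodd
  · have he1 : 1 ≤ e := by omega
    have hen : e ≤ n := by omega
    have hd2 : d = 2 * e := by omega
    subst hd2
    refine ⟨pe n e he1, ?_⟩
    set p := pe n e he1 with hp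
    have h1 : ∑ i ∈ Icc 1 n, ct (2 * e) i * (n / i - p.parts.count i) +
        ∑ i ∈ Icc 1 n, ct (2 * e) i * p.parts.count i =
        ∑ i ∈ Icc 1 n, ct (2 * e) i * (n / i - cc n i) + ∑ i ∈ Icc 1 n, ct (2 * e) i * cc n i := by
      rw [← sum_add_distrib, ← sum_add_distrib]
      refine sum_congr rfl fun i hi => ?_
      rw [mem_Icc] at hi
      rw [← mul_add, ← mul_add, Nat.sub_add_cancel (count_le n i hi.1 p),
        Nat.sub_add_cancel (cc_le n i hi.1)]
    have h2 := cc_sum_le n e he1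
    have h3 : n / e ≤ ∑ i ∈ Icc 1 n, ct (2 * e) i * p.parts.count i := by
      have h4 : ct (2 * e) e * p.parts.count e ≤ ∑ i ∈ Icc 1 n, ct (2 * e) i * p.parts.count i :=
        single_le_sum (f := fun i => ct (2 * e) i * p.parts.count i)
          (fun i _ => Nat.zero_le _) (mem_Icc.2 ⟨he1, hen⟩)
      refine le_trans ?_ h4
      have h5 : ct (2 * e) e = 1 := by
        unfold ct
        rw [if_pos]
        refine ⟨dvd_rfl, fun h => ?_⟩
        have := Nat.le_of_dvd (by omega) h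
        omega
      rw [h5, one_mul, hp]
      show n / e ≤ Multiset.count e (Multiset.replicate (n / e) e + Multiset.replicate (n % e) 1)
      rw [Multiset.count_add, Multiset.count_replicate_self]
      omega
    omega
  · refine ⟨default, ?_⟩
    have h1 : ∀ i, ct d i = 0 := by
      intro i
      unfold ct
      rw [if_neg]
      rintro ⟨h2, h3⟩
      exact h3 ((Nat.Coprime.dvd_mul_left (Nat.Coprime.symm (Nat.coprime_two_left.2 hodd))).1 h2)
    simp [h1]

/-- the greatest common divisor -/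
noncomputable def GG (n : ℕ) : ℤ[X] := ∏ i ∈ Icc 1 n, (1 + X ^ i) ^ (n / i - cc n i)

theorem one_add_monic (i : ℕ) (hi : 1 ≤ i) : (1 + X ^ i : ℤ[X]).Monic := by
  have := monic_X_pow_add_C (1 : ℤ) (by omega : i ≠ 0)
  rw [add_comm]
  simpa using this

theorem GG_monic (n : ℕ) : (GG n).Monic :=
  monic_prod_of_monic _ _ fun i hi => (one_add_monic i (mem_Icc.1 hi).1).pow _

/-- any common divisor divides `GG n` -/
theorem dvd_GG (n : ℕ) (q : ℤ[X]) (h : ∀ p : n.Partition, q ∣ hl n p) : q ∣ GG n := by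
  have hform : ∀ p : n.Partition, hl n p = ∏ d ∈ Icc 1 (2 * n), cyclotomic d ℤ ^
      (∑ i ∈ Icc 1 n, ct d i * (n / i - p.parts.count i)) := fun p => prod_form n _
  have hS : ∀ d ∈ Icc 1 (2 * n), 1 ≤ d := fun d hd => (mem_Icc.1 hd).1
  have h0 := h default
  rw [hform] at h0
  obtain ⟨a, ha⟩ := dvd_form _ _ hS q h0
  refine ha.dvd.trans ?_
  unfold GG
  rw [prod_form]
  refine prod_dvd_prod_of_dvd _ _ fun d hd => ?_
  refine pow_dvd_pow _ ?_
  obtain ⟨p, hp⟩ := exists_part n d (mem_Icc.1 hd).1 (mem_Icc.1 hd).2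
  refine le_trans ?_ hp
  refine pow_le (Icc 1 (2 * n)) (fun d => ∑ i ∈ Icc 1 n, ct d i * (n / i - p.parts.count i)) hS d
    hd (a d) ?_
  have h1 := h p
  rw [hform] at h1
  refine (dvd_trans ?_ ha.symm.dvd).trans h1
  exact dvd_prod_of_mem (fun d => cyclotomic d ℤ ^ a d) hd

/-- the product of the `1 + X ^ i` over the parts -/
theorem parts_prod (n : ℕ) (p : n.Partition) :
    (p.parts.map fun i => (1 + X ^ i : ℤ[X])).prod = ∏ i ∈ Icc 1 n, (1 + X ^ i) ^ p.parts.count i := by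
  rw [Finset.prod_multiset_map_count]
  refine prod_subset ?_ ?_
  · intro i hi
    rw [Multiset.mem_toFinset] at hi
    rw [mem_Icc]
    refine ⟨p.parts_pos hi, ?_⟩
    have := Multiset.single_le_sum (fun x _ => Nat.zero_le x) i hi
    rwa [p.parts_sum] at this
  · intro i _ hi
    rw [Multiset.mem_toFinset] at hi
    rw [Multiset.count_eq_zero_of_notMem hi, pow_zero]

/-- `hl n p = GG n * f` when `f` is the quotient of `R1` -/
theorem hl_eq (n : ℕ) (p : n.Partition) (f : ℤ[X])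
    (hf : ∏ i ∈ Icc 1 n, (1 + X ^ i : ℤ[X]) ^ cc n i =
      (p.parts.map fun i => (1 + X ^ i : ℤ[X])).prod * f) : hl n p = GG n * f := by
  have h1 : hl n p * ∏ i ∈ Icc 1 n, (1 + X ^ i : ℤ[X]) ^ p.parts.count i =
      ∏ i ∈ Icc 1 n, (1 + X ^ i) ^ (n / i) := by
    unfold hl
    rw [← prod_mul_distrib]
    refine prod_congr rfl fun i hi => ?_
    rw [← pow_add, Nat.sub_add_cancel (count_le n i (mem_Icc.1 hi).1 p)]
  have h2 : GG n * ∏ i ∈ Icc 1 n, (1 + X ^ i : ℤ[X]) ^ cc n i =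
      ∏ i ∈ Icc 1 n, (1 + X ^ i) ^ (n / i) := by
    unfold GG
    rw [← prod_mul_distrib]
    refine prod_congr rfl fun i hi => ?_
    rw [← pow_add, Nat.sub_add_cancel (cc_le n i (mem_Icc.1 hi).1)]
  rw [hf, parts_prod] at h2
  have h3 : (∏ i ∈ Icc 1 n, (1 + X ^ i : ℤ[X]) ^ p.parts.count i) ≠ 0 :=
    (monic_prod_of_monic _ _ fun i hi => (one_add_monic i (mem_Icc.1 hi).1).pow _).ne_zero
  refine mul_right_cancel₀ h3 ?_
  rw [h1, ← h2]
  ring

theorem GG_dvd (h1 : R1Stmt) (n : ℕ) (p : n.Partition) : GG n ∣ hl n p := by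
  obtain ⟨f, hf⟩ := h1 n p
  exact ⟨f, hl_eq n p f hf⟩

end R3

open R3 in
theorem R3_thm (h1 : R1Stmt) : R3Stmt := by
  intro n _
  choose f hf using fun p => GG_dvd h1 n p
  refine ⟨∑ p, f p, GG n, GG_monic n, GG_dvd h1 n, dvd_GG n, ?_⟩
  rw [Finset.mul_sum]
  exact Finset.sum_congr rfl fun p _ => (hf p).symm

end Pool.Agent.H37.UM
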