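import Pool.Agent.H15.UM.R3

set_option autoImplicit false

namespace Pool.Agent.H37.UM

namespace SYMP

open R1 R3 Finset Polynomial

theorem rev_one_add (i : ℕ) (hi : 1 ≤ i) : (1 + X ^ i : ℤ[X]).reverse = 1 + X ^ i := by
  have hd : (1 + X ^ i : ℤ[X]).natDegree = i := by
    have := natDegree_X_pow_add_C (n := i) (r := (1 : ℤ))
    rw [add_comm]
    simpa using this
  ext k
  rw [coeff_reverse, hd]
  simp only [coeff_add, coeff_one, coeff_X_pow]
  by_cases hk : k ≤ i
  · rw [revAt_le hk]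
    by_cases h1 : k = 0
    · subst h1
      have : ¬ (i = 0) := by omega
      simp [this]
      omega
    · by_cases h2 : k = i
      · subst h2; simp [h1]; omega
      · have h3 : ¬ (i - k = 0) := by omega
        have h4 : ¬ (i - k = i) := by omega
        simp [h1, h2, h3, h4]
  · have : revAt i k = k := by
      rw [revAt_eq_self_of_lt (by omega)]
    rw [this]

theorem rev_parts (s : Multiset ℕ) (hs : ∀ i ∈ s, 1 ≤ i) :
    ((s.map fun i => (1 + X ^ i : ℤ[X])).prod).reverse = (s.map fun i => (1 + X ^ i : ℤ[X])).prod ∧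
      (s.map fun i => (1 + X ^ i : ℤ[X])).prod.Monic ∧
      (s.map fun i => (1 + X ^ i : ℤ[X])).prod.natDegree = s.sum := by
  induction s using Multiset.induction_on with
  | empty =>
    refine ⟨?_, by simp, by simp⟩
    simp only [Multiset.map_zero, Multiset.prod_zero]
    have := reverse_C (1 : ℤ)
    simpa using this
  | cons i s ih =>
    obtain ⟨h1, h2, h3⟩ := ih fun j hj => hs j (Multiset.mem_cons_of_mem hj)
    have hi := hs i (Multiset.mem_cons_self i s)
    have hm := one_add_monic i hi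
    have hd : (1 + X ^ i : ℤ[X]).natDegree = i := by
      have := natDegree_X_pow_add_C (n := i) (r := (1 : ℤ))
      rw [add_comm]
      simpa using this
    rw [Multiset.map_cons, Multiset.prod_cons, Multiset.sum_cons]
    refine ⟨by rw [reverse_mul_of_domain, h1, rev_one_add i hi], hm.mul h2, ?_⟩
    rw [hm.natDegree_mul h2, hd, h3]

/-- the multiset of the factors of the denominator -/
def bs (n : ℕ) : Multiset ℕ := ∑ i ∈ Icc 1 n, Multiset.replicate (cc n i) i

theorem bs_prod {M : Type} [CommMonoid M] (n : ℕ) (φ : ℕ → M) :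
    ((bs n).map φ).prod = ∏ i ∈ Icc 1 n, φ i ^ cc n i := by
  unfold bs
  generalize Icc 1 n = S
  induction S using Finset.induction_on with
  | empty => simp
  | insert i S hi ih =>
    rw [sum_insert hi, prod_insert hi, Multiset.map_add, Multiset.prod_add, ih,
      Multiset.map_replicate, Multiset.prod_replicate]

theorem bs_sum (n : ℕ) : (bs n).sum = ∑ i ∈ Icc 1 n, cc n i * i := by
  unfold bs
  rw [Multiset.sum_sum]
  simp

theorem bs_pos (n : ℕ) : ∀ i ∈ bs n, 1 ≤ i := by
  intro i hi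
  unfold bs at hi
  rw [Multiset.mem_sum] at hi
  obtain ⟨j, hj, h1⟩ := hi
  rw [Multiset.eq_of_mem_replicate h1]
  exact (mem_Icc.1 hj).1

theorem geo (m : ℕ) (hm : 1 ≤ m) :
    ∑ a ∈ range (padicValNat 2 m + 1), m / 2 ^ a + op m = 2 * m := by
  obtain ⟨h1, h2, h3⟩ := op_spec m hm
  have key : ∀ v t : ℕ, ∑ a ∈ range (v + 1), 2 ^ v * t / 2 ^ a + t = 2 * (2 ^ v * t) := by
    intro v t
    induction v with
    | zero => simp; ring
    | succ v ih =>
      rw [sum_range_succ']
      have h4 : ∑ a ∈ range (v + 1), 2 ^ (v + 1) * t / 2 ^ (a + 1) =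
          ∑ a ∈ range (v + 1), 2 ^ v * t / 2 ^ a := by
        refine sum_congr rfl fun a _ => ?_
        rw [pow_succ, pow_succ, mul_right_comm, Nat.mul_div_mul_right _ _ (by norm_num)]
      rw [h4, pow_zero, Nat.div_one]
      have h5 : 2 ^ (v + 1) * t = 2 * (2 ^ v * t) := by ring
      rw [h5]
      omega
  have h4 := key (padicValNat 2 m) (op m)
  rw [← h1] at h4
  exact h4

theorem deg_eq (n : ℕ) : ∑ i ∈ Icc 1 n, cc n i * i = n + dg n := by
  have h1 : ∑ i ∈ Icc 1 n, cc n i * i =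
      ∑ x ∈ (Icc 1 n).sigma (fun i => range (cc n i)), x.1 := by
    rw [sum_sigma]
    simp
  have h2 : ∑ x ∈ (Icc 1 n).sigma (fun i => range (cc n i)), x.1 =
      ∑ x ∈ (Icc 1 n).sigma (fun m => range (padicValNat 2 m + 1)), x.1 / 2 ^ x.2 := by
    refine sum_nbij' (fun x => ⟨2 ^ x.2 * x.1, x.2⟩) (fun y => ⟨y.1 / 2 ^ y.2, y.2⟩) ?_ ?_ ?_ ?_ ?_
    · rintro ⟨i, a⟩ hx
      simp only [mem_sigma, mem_Icc, mem_range] at hx ⊢
      rw [cc_lt n i a hx.1.1] at hx
      have h3 : 0 < 2 ^ a := by positivity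
      have h4 : 1 ≤ 2 ^ a * i := Nat.mul_pos h3 (by omega)
      refine ⟨⟨h4, hx.2⟩, ?_⟩
      have h5 := (padicValNat_dvd_iff_le (p := 2) (by omega : 2 ^ a * i ≠ 0)).1 (Dvd.intro i rfl)
      omega
    · rintro ⟨m, a⟩ hx
      simp only [mem_sigma, mem_Icc, mem_range] at hx ⊢
      obtain ⟨⟨h3, h4⟩, h5⟩ := hx
      have h6 : 2 ^ a ∣ m := (padicValNat_dvd_iff_le (p := 2) (by omega : m ≠ 0)).2 (by omega)
      have h7 : 2 ^ a * (m / 2 ^ a) = m := Nat.mul_div_cancel' h6
      have h8 : 1 ≤ m / 2 ^ a := Nat.div_pos (Nat.le_of_dvd (by omega) h6) (by positivity)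
      refine ⟨⟨h8, (Nat.div_le_self _ _).trans h4⟩, ?_⟩
      rw [cc_lt n _ a h8, h7]
      exact h4
    · rintro ⟨i, a⟩ _
      simp only [Sigma.mk.injEq, heq_eq_eq, and_true]
      exact Nat.mul_div_cancel_left i (by positivity)
    · rintro ⟨m, a⟩ hx
      simp only [mem_sigma, mem_Icc, mem_range] at hx
      obtain ⟨⟨h3, h4⟩, h5⟩ := hx
      have h6 : 2 ^ a ∣ m := (padicValNat_dvd_iff_le (p := 2) (by omega : m ≠ 0)).2 (by omega)
      simp only [Sigma.mk.injEq, heq_eq_eq, and_true]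
      exact Nat.mul_div_cancel' h6
    · rintro ⟨i, a⟩ _
      simp only
      exact (Nat.mul_div_cancel_left i (by positivity)).symm
  rw [h1, h2, sum_sigma]
  unfold dg dU
  have h4 : Ioc 0 n = Icc 1 n := by ext x; simp [mem_Ioc, mem_Icc]; omega
  have h3 : n + ∑ m ∈ Ioc 0 n, (2 * m - op m - 1) = ∑ m ∈ Icc 1 n, (1 + (2 * m - op m - 1)) := by
    rw [h4, sum_add_distrib]
    simp
  rw [h3]
  refine sum_congr rfl fun m hm => ?_
  rw [mem_Icc] at hm
  have h5 := geo m hm.1
  have h6 : op m ≤ m := Nat.div_le_self _ _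
  simp only
  omega

theorem dg_even (n : ℕ) : Even (dg n) := by
  unfold dg dU
  refine Finset.even_sum _ fun m hm => ?_
  rw [mem_Ioc] at hm
  obtain ⟨h1, h2, h3⟩ := op_spec m hm.1
  have h6 : op m ≤ m := Nat.div_le_self _ _
  rw [Nat.even_iff]
  omega

theorem coeff_neg (f : ℤ[X]) (k : ℕ) :
    PowerSeries.coeff k (PowerSeries.evalNegHom (f : PowerSeries ℤ)) = (-1) ^ k * f.coeff k := by
  unfold PowerSeries.evalNegHom
  rw [PowerSeries.coeff_rescale, Polynomial.coeff_coe]

theorem neg_w (i : ℕ) :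
    PowerSeries.evalNegHom (((1 + X ^ i : ℤ[X]) : ℤ[X]) : PowerSeries ℤ) = w i := by
  unfold w
  rw [Polynomial.coe_add, Polynomial.coe_one, Polynomial.coe_pow, Polynomial.coe_X, map_add,
    map_one, map_pow, PowerSeries.evalNegHom_X]

theorem w_mul_g (i : ℕ) (hi : 1 ≤ i) : w i * g i = 1 := by
  unfold g
  apply PowerSeries.mul_invOfUnit
  unfold w
  simp [show i ≠ 0 by omega]

theorem parts_g (s : Multiset ℕ) (hs : ∀ i ∈ s, 1 ≤ i) :
    PowerSeries.evalNegHom (((s.map fun i => (1 + X ^ i : ℤ[X])).prod : ℤ[X]) : PowerSeries ℤ) *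
      (s.map g).prod = 1 := by
  induction s using Multiset.induction_on with
  | empty => simp
  | cons i s ih =>
    have h1 := ih fun j hj => hs j (Multiset.mem_cons_of_mem hj)
    have h2 := w_mul_g i (hs i (Multiset.mem_cons_self i s))
    rw [Multiset.map_cons, Multiset.prod_cons, Multiset.map_cons, Multiset.prod_cons,
      Polynomial.coe_mul, map_mul, neg_w]
    calc _ = (w i * g i) * (PowerSeries.evalNegHom
          (((s.map fun i => (1 + X ^ i : ℤ[X])).prod : ℤ[X]) : PowerSeries ℤ) * (s.map g).prod) := by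
          ring
      _ = 1 := by rw [h1, h2, mul_one]

theorem den_eq (n : ℕ) : den n = PowerSeries.evalNegHom
    ((∏ i ∈ Icc 1 n, (1 + X ^ i : ℤ[X]) ^ cc n i : ℤ[X]) : PowerSeries ℤ) := by
  have h1 : ((∏ i ∈ Icc 1 n, (1 + X ^ i : ℤ[X]) ^ cc n i : ℤ[X]) : PowerSeries ℤ) =
      ∏ i ∈ Icc 1 n, ((1 + X ^ i : ℤ[X]) : PowerSeries ℤ) ^ cc n i := by
    exact (map_prod (Polynomial.coeToPowerSeries.ringHom (R := ℤ))
      (fun i => (1 + X ^ i : ℤ[X]) ^ cc n i) (Icc 1 n)).trans
      (prod_congr rfl fun i _ => map_pow _ _ _)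
  rw [h1, map_prod]
  unfold den
  refine prod_congr rfl fun i _ => ?_
  rw [map_pow, neg_w]

/-- a summand of `P n` is the image of the quotient of `R1` -/
theorem summand (n : ℕ) (p : n.Partition) (f : ℤ[X])
    (hf : ∏ i ∈ Icc 1 n, (1 + X ^ i : ℤ[X]) ^ cc n i =
      (p.parts.map fun i => (1 + X ^ i : ℤ[X])).prod * f) :
    den n * (p.parts.map g).prod = PowerSeries.evalNegHom (f : PowerSeries ℤ) := by
  rw [den_eq, hf, Polynomial.coe_mul, map_mul]
  have h1 := parts_g p.parts (fun i hi => p.parts_pos hi)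
  calc _ = (PowerSeries.evalNegHom
        (((p.parts.map fun i => (1 + X ^ i : ℤ[X])).prod : ℤ[X]) : PowerSeries ℤ) *
        (p.parts.map g).prod) * PowerSeries.evalNegHom (f : PowerSeries ℤ) := by ring
    _ = _ := by rw [h1, one_mul]

theorem quot (n : ℕ) (p : n.Partition) (f : ℤ[X])
    (hf : ∏ i ∈ Icc 1 n, (1 + X ^ i : ℤ[X]) ^ cc n i =
      (p.parts.map fun i => (1 + X ^ i : ℤ[X])).prod * f) :
    f.reverse = f ∧ f.natDegree = dg n := by
  obtain ⟨h1, h2, h3⟩ := rev_parts p.parts (fun i hi => p.parts_pos hi)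
  obtain ⟨h4, h5, h6⟩ := rev_parts (bs n) (bs_pos n)
  rw [bs_prod] at h4 h5 h6
  have hfm : f.Monic := h2.of_mul_monic_left (hf ▸ h5)
  constructor
  · have h7 := h4
    rw [hf, reverse_mul_of_domain, h1] at h7
    exact mul_left_cancel₀ h2.ne_zero h7
  · rw [hf, h2.natDegree_mul hfm, h3, p.parts_sum, bs_sum, deg_eq] at h6
    omega

theorem sym_one (n : ℕ) (p : n.Partition) (h1 : R1Stmt) :
    Sym (dg n) (den n * (p.parts.map g).prod) := by
  obtain ⟨f, hf⟩ := h1 n p
  rw [summand n p f hf]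
  obtain ⟨h2, h3⟩ := quot n p f hf
  constructor
  · intro k hk
    rw [coeff_neg, coeff_eq_zero_of_natDegree_lt (by omega), mul_zero]
  · intro k hk
    rw [coeff_neg, coeff_neg]
    have h4 : f.coeff (dg n - k) = f.coeff k := by
      conv_rhs => rw [← h2, coeff_reverse, h3, revAt_le hk]
    rw [h4]
    congr 1
    obtain ⟨c, hc⟩ := dg_even n
    rcases Nat.even_or_odd k with h5 | h5
    · rw [h5.neg_one_pow, Even.neg_one_pow]
      rw [Nat.even_iff] at h5 ⊢
      omega
    · rw [h5.neg_one_pow, Odd.neg_one_pow]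
      rw [Nat.odd_iff] at h5 ⊢
      omega

end SYMP

open SYMP in
theorem SYMP_thm (h1 : R1Stmt) : SYMPStmt := by
  intro n
  have h2 : P n = ∑ p : n.Partition, den n * (p.parts.map g).prod := by
    unfold P h
    rw [Finset.mul_sum]
  rw [h2]
  constructor
  · intro k hk
    rw [map_sum]
    exact Finset.sum_eq_zero fun p _ => (sym_one n p h1).top k hk
  · intro k hk
    rw [map_sum, map_sum]
    exact Finset.sum_congr rfl fun p _ => (sym_one n p h1).sym k hk

end Pool.Agent.H37.UM
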